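import Mathlib
import Pool.Agent.U282.ZL.Lo5

/-!
# The Loewy length of the cohomology of products is additive

Let `X`, `Y` be smooth projective varieties over a field, `Γ` its Galois group, and `V = H^i(X)`,
`W = H^j(Y)` the cohomology with coefficients in an algebraically closed field `K` of
characteristic zero, both nonzero.  The Loewy length `LL(V)` of a representation `V` is the least
length of a filtration of `V` by stable subspaces with semisimple quotients; so `V` is semisimple
if and only if `LL(V) ≤ 1`.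

* `LL(V ⊗ W) = LL(V) + LL(W) - 1` for the Künneth component `V ⊗ W` of `H^{i+j}(X × Y)`.
* `LL(V^{⊗ n}) = n (LL(V) - 1) + 1` for the Künneth component `V^{⊗ n}` of `H^{ni}(X^n)`.
* All `H^i(X)` are semisimple if and only if `LL(H^i(X)) ≤ f(i)` for all `X` and `i`, with some
  function `f` such that `f(i) / i` tends to zero.
-/

set_option autoImplicit false

namespace Pool.Agent.Results.MP_b4801b_ag.AdditiveLoewyLength

open Module Pool.Agent.U282.ZL
open scoped TensorProduct

section defs

variable {K Γ A B C : Type} [Field K] [Group Γ] [AddCommGroup A] [Module K A] [AddCommGroup B]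
  [Module K B] [AddCommGroup C] [Module K C]

/-- `R` has a filtration of length `k` by stable subspaces with semisimple quotients. -/
def HasFiltration (ρ : Representation K Γ A) (R : Submodule K A) (k : ℕ) : Prop :=
  ∃ F : ℕ → Submodule K A, F 0 = ⊥ ∧ F k = R ∧ ∀ i < k, SSLayer ρ (F i) (F (i + 1))

/-- The Loewy length is at most `k`. -/
def LoewyAtMost (ρ : Representation K Γ A) (k : ℕ) : Prop := HasFiltration ρ ⊤ k

/-- `κ` is injective and equivariant. -/
def IsKunneth (ρ : Representation K Γ A) (σ : Representation K Γ B) (τ : Representation K Γ C)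
    (κ : A ⊗[K] B →ₗ[K] C) : Prop :=
  Function.Injective κ ∧ ∀ g t, κ ((ρ.tprod σ) g t) = τ g (κ t)

end defs

/-- A class of varieties with products and their cohomology with the action of `Γ`; the Künneth
components `H^i(X) ⊗ H^j(Y)` are contained in `H^{i+j}(X × Y)`. -/
structure Cohomology (K Γ : Type) [Field K] [Group Γ] where
  Var : Type
  prod : Var → Var → Var
  H : Var → ℕ → Type
  [addH : ∀ X i, AddCommGroup (H X i)]
  [modH : ∀ X i, Module K (H X i)]
  [finH : ∀ X i, FiniteDimensional K (H X i)]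
  /-- the action on `H^i(X)` -/
  act : ∀ X i, Representation K Γ (H X i)
  /-- the exterior product -/
  cross : ∀ X Y i j, H X i ⊗[K] H Y j →ₗ[K] H (prod X Y) (i + j)
  isKunneth : ∀ X Y i j, IsKunneth (act X i) (act Y j) (act (prod X Y) (i + j)) (cross X Y i j)

attribute [instance] Cohomology.addH Cohomology.modH Cohomology.finH

variable {K Γ : Type} [Field K] [Group Γ]

/-- `H^i(X)` is not zero. -/
def NonZero (T : Cohomology K Γ) (X : T.Var) (i : ℕ) : Prop := Nontrivial (T.H X i)

/-- `H^i(X)` is semisimple. -/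
def Semisimple (T : Cohomology K Γ) (X : T.Var) (i : ℕ) : Prop := SSRep (T.act X i)

/-- The Loewy length of `H^i(X)` is at most `k`. -/
def AtMost (T : Cohomology K Γ) (X : T.Var) (i k : ℕ) : Prop := LoewyAtMost (T.act X i) k

/-- The Loewy length of the component `H^i(X) ⊗ H^j(Y)` of `H^{i+j}(X × Y)` is at most `k`. -/
def ComponentAtMost (T : Cohomology K Γ) (X Y : T.Var) (i j k : ℕ) : Prop :=
  HasFiltration (T.act (T.prod X Y) (i + j)) (LinearMap.range (T.cross X Y i j)) k

/-- The Loewy length of the tensor power of `H^i(X)` is at most `k`. -/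
def PowerAtMost (T : Cohomology K Γ) (X : T.Var) (i n k : ℕ) : Prop :=
  LoewyAtMost (tpow (T.act X i) n) k

/-- `LL(H^i(X) ⊗ H^j(Y)) = LL(H^i(X)) + LL(H^j(Y)) - 1`. -/
def ProductFormula (T : Cohomology K Γ) : Prop :=
  ∀ X Y i j, NonZero T X i → NonZero T Y j → ∀ k,
    (ComponentAtMost T X Y i j k ↔ ∃ p q, AtMost T X i p ∧ AtMost T Y j q ∧ p + q ≤ k + 1)

/-- `LL(H^i(X)^{⊗ n}) = n (LL(H^i(X)) - 1) + 1`. -/
def PowerFormula (T : Cohomology K Γ) : Prop :=
  ∀ X i n, NonZero T X i → 0 < n → ∀ k,
    (PowerAtMost T X i n k ↔ ∃ p, AtMost T X i p ∧ n * p + 1 ≤ k + n)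

/-- `f i / i` tends to zero. -/
def IsSublinear (f : ℕ → ℕ) : Prop := ∀ c, ∃ i₀, ∀ i ≥ i₀, c * f i ≤ i

theorem product_formula [CharZero K] [IsAlgClosed K] (T : Cohomology K Γ) : ProductFormula T := by
  intro X Y i j hX hY k
  have : Nontrivial (T.H X i) := hX
  have : Nontrivial (T.H Y j) := hY
  have h1 := isFilt_iff ((T.act X i).tprod (T.act Y j)) (T.act (T.prod X Y) (i + j))
    (T.cross X Y i j) (T.isKunneth X Y i j).1 (T.isKunneth X Y i j).2 k
  exact h1.symm.trans (loewy_tprod (T.act X i) (T.act Y j) k)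

theorem power_formula [CharZero K] [IsAlgClosed K] (T : Cohomology K Γ) : PowerFormula T := by
  intro X i n hX hn k
  have : Nontrivial (T.H X i) := hX
  exact loewy_tpow (T.act X i) n hn k

/-- The powers of `X`. -/
def pow (T : Cohomology K Γ) (X : T.Var) : ℕ → T.Var
  | 0 => X
  | n + 1 => T.prod (pow T X n) X

theorem growth [CharZero K] [IsAlgClosed K] (T : Cohomology K Γ) (X : T.Var) (i : ℕ)
    (h : ¬ Semisimple T X i) : ∀ n k, AtMost T (pow T X n) (n * i + i) k → n + 2 ≤ k := by
  have hX : ∀ k, AtMost T X i k → 2 ≤ k := by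
    intro k hk
    by_contra hcon
    have hk1 : AtMost T X i 1 := isFilt_mono (T.act X i) (by omega) hk
    exact h ((isFilt_one (T.act X i)).1 hk1)
  have hnz : ∀ (Y : T.Var) (j : ℕ), (∀ k, AtMost T Y j k → 0 < k) → NonZero T Y j := by
    intro Y j hY
    by_contra hcon
    have : Subsingleton (T.H Y j) := not_nontrivial_iff_subsingleton.1 hcon
    exact absurd (hY 0 (isFilt_of_subsingleton (T.act Y j))) (lt_irrefl 0)
  intro n
  induction n with
  | zero =>
    intro k hk
    rw [Nat.zero_mul, Nat.zero_add] at hk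
    exact hX k hk
  | succ n ih =>
    intro k hk
    have hk' : AtMost T (T.prod (pow T X n) X) ((n * i + i) + i) k := by
      have : (n + 1) * i + i = (n * i + i) + i := by ring
      rw [this] at hk
      exact hk
    have h1 := hasLoewy_sub ((T.act (pow T X n) (n * i + i)).tprod (T.act X i))
      (T.act (T.prod (pow T X n) X) ((n * i + i) + i)) (T.cross (pow T X n) X (n * i + i) i)
      (T.isKunneth _ _ _ _).1 (T.isKunneth _ _ _ _).2 k hk'
    have : Nontrivial (T.H (pow T X n) (n * i + i)) :=
      hnz _ _ fun k hk => by have := ih k hk; omega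
    have : Nontrivial (T.H X i) := hnz _ _ fun k hk => by have := hX k hk; omega
    obtain ⟨p, q, hp, hq, hpq⟩ := (loewy_tprod (T.act (pow T X n) (n * i + i)) (T.act X i) k).1 h1
    have h2 := ih p hp
    have h3 := hX q hq
    omega

theorem result [CharZero K] [IsAlgClosed K] (T : Cohomology K Γ) :
    ProductFormula T ∧ PowerFormula T ∧
    ((∀ X i, Semisimple T X i) ↔ ∃ f : ℕ → ℕ, IsSublinear f ∧ ∀ X i, AtMost T X i (f i)) := by
  refine ⟨product_formula T, power_formula T, ?_, ?_⟩
  · intro h
    refine ⟨fun _ => 1, fun c => ⟨c, fun i hi => by simpa using hi⟩, fun X i => ?_⟩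
    exact (isFilt_one (T.act X i)).2 (h X i)
  · rintro ⟨f, hf, hX⟩ X i
    by_contra hcon
    have h1 := growth T X i hcon
    rcases Nat.eq_zero_or_pos i with h0 | h0
    · subst h0
      have h2 := h1 (f 0) (f 0) (by
        have := hX (pow T X (f 0)) (f 0 * 0 + 0)
        rwa [Nat.mul_zero] at this)
      omega
    · obtain ⟨i₀, hi₀⟩ := hf i
      have h2 := h1 i₀ _ (hX (pow T X i₀) (i₀ * i + i))
      have h3 : i₀ ≤ i₀ * i := Nat.le_mul_of_pos_right i₀ h0
      have h4 := hi₀ (i₀ * i + i) (by omega)
      have h5 : i * (i₀ + 2) ≤ i * f (i₀ * i + i) := Nat.mul_le_mul_left i h2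
      have h6 : i * (i₀ + 2) = i₀ * i + i + i := by ring
      omega

end Pool.Agent.Results.MP_b4801b_ag.AdditiveLoewyLength
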