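import Pool.Agent.U483.KP.Ss

/-!
# Semisimplicity of the Galois action and the Grothendieck ring of varieties

Let `k` be a finitely generated field of characteristic zero with an embedding in `ℂ`, `G` its absolute Galois
group and `K` an algebraic closure of `ℚ_ℓ` (a representation over `ℚ_ℓ` is semisimple if and only if it is
semisimple over `K`). `𝓜` is the semisimple tensor category of the pure motives over `k` for absolute Hodge
cycles (Deligne), with the realization `A ↦ R.V A` in `ℓ`-adic cohomology, and `H.h i w X = gr^W_w h^i_c(X)` for all
separated schemes `X` of finite type over `k` (Deligne, Jannsen). The structures `CompactCoh`, `IsMultiplicative`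
and `Realization` list the known properties which are used. A representation is semisimple (`SSRep`) if all stable
subspaces have stable complements.

* For a smooth projective `X` all `H^i(X)` are semisimple if and only if the class of `X` in the Grothendieck group
  `K_0(Var_k)` of varieties is in the subgroup generated by the classes of the (arbitrary, open or singular) schemes
  `Y` all of whose `gr^W_w H^i_c(Y)` are semisimple. So semisimplicity depends only on the class in `K_0(Var_k)`.
* The schemes `Y` with this property contain the schemes which can be built (`Built`) from schemes of dimension at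
  most `D` (`D = 1`: Faltings) and from a class `B` of schemes for which it is known (abelian varieties: Faltings; K3
  surfaces). So all `H^i(X)` are semisimple if the class of the smooth projective `X` is in the subgroup generated by
  these schemes, in arbitrary dimension.

The category of motives for absolute Hodge cycles is semisimple, but it is not known that the Galois
representations attached to its simple objects are semisimple. If `H^i(X)` is not semisimple, then there is a direct
factor `S` of `h^i(X)` whose representation is not semisimple and without morphisms to motives with a semisimple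
representation; the additive function `Y ↦ ∑ (-1)^n dim Hom(S, gr^W_i h^n_c(Y))` on `K_0(Var_k)` is zero on the classes of
the good `Y`, but not on the class of `X`. Chevalley's theorem on tensor products is proved in the library
(helper282).
-/

set_option autoImplicit false

open CategoryTheory AlgebraicGeometry Pool.Agent.Y116.UV Pool.Agent.U483.KM Pool.Agent.U483.GU
  Pool.Agent.U483.KP Pool.Agent.U282.ZL

namespace Pool.Agent.Results.MP_b4801b_ag.GrothendieckRing

universe w x

/-- All `gr^W_w H^i_c(Y)` are semisimple representations. -/
def Semisimple {k : Type} [Field k] {𝓜 : Type w} [Category.{x} 𝓜] [Abelian 𝓜] [Linear ℚ 𝓜]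
    [MonoidalCategory 𝓜] (H : CompactCoh.{w, x} k 𝓜) {G K : Type} [Group G] [Field K]
    (R : Realization.{w, x} 𝓜 G K) (Y : Sch k) : Prop :=
  ∀ i w : ℤ, SSRep (R.ρ (H.h i w Y))

theorem result (k : Type) [Field k] (𝓜 : Type w) [Category.{x} 𝓜] [Abelian 𝓜] [Linear ℚ 𝓜]
    [MonoidalCategory 𝓜] (H : CompactCoh.{w, x} k 𝓜) (L : 𝓜) (hH : IsMultiplicative H L)
    (G K : Type) [Group G] [Field K] [CharZero K] [IsAlgClosed K] (R : Realization.{w, x} 𝓜 G K)
    (hL : SSRep (R.ρ L)) :
    -- semisimplicity in terms of the class in `K_0(Var_k)`
    (∀ X : Var k, SmoothProjective X.1 → ((∀ i : ℤ, SSRep (R.ρ (H.h i i X.1))) ↔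
      cls X ∈ AddSubgroup.closure {c | ∃ Y : Var k, Semisimple H R Y.1 ∧ c = cls Y})) ∧
    (∀ X X' : Var k, SmoothProjective X.1 → SmoothProjective X'.1 → cls X = cls X' →
      ((∀ i : ℤ, SSRep (R.ρ (H.h i i X.1))) ↔ ∀ i : ℤ, SSRep (R.ρ (H.h i i X'.1)))) ∧
    -- varieties built from varieties of dimension at most `D` and a class `B` (Faltings)
    (∀ (B : Sch k → Prop), (∀ Y, FT True Y → B Y → Semisimple H R Y) → ∀ D : ℕ,
      (∀ Y : Sch k, FT True Y → topologicalKrullDim Y.left ≤ D → Semisimple H R Y) →
      (∀ Y, Built k B D Y → Semisimple H R Y) ∧
        ∀ X : Var k, SmoothProjective X.1 →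
          cls X ∈ AddSubgroup.closure {c | ∃ Y : Var k, Built k B D Y.1 ∧ c = cls Y} →
          ∀ i : ℤ, SSRep (R.ρ (H.h i i X.1))) := by
  have hT := thick_ss R
  have key : ∀ X : Var k, SmoothProjective X.1 → ((∀ i : ℤ, SSRep (R.ρ (H.h i i X.1))) ↔
      cls X ∈ AddSubgroup.closure {c | ∃ Y : Var k, Semisimple H R Y.1 ∧ c = cls Y}) := by
    intro X hX
    refine Iff.trans ⟨fun h i w => ?_, fun h i => h i i⟩ (in_iff_mem H hT hX)
    by_cases hiw : i = w
    · subst hiw
      exact h i
    · exact hT.zero _ (H.pure X.1 hX i w hiw)
  refine ⟨key, fun X X' hX hX' h => ?_, fun B hB D hD => ⟨fun Y hY => ?_, fun X hX h i => ?_⟩⟩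
  · rw [key X hX, key X' hX', h]
  · exact (in_built hH (tensorThick_ss R) hL hB hD hY).2
  · exact in_of_built hH (tensorThick_ss R) hL hB hD hX h i i

end Pool.Agent.Results.MP_b4801b_ag.GrothendieckRing
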