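import Mathlib
import Pool.Agent.U282.ZL.Fil

/-!
# The semisimple parts of the cohomology of the powers decide semisimplicity

Let `X` be a smooth projective variety over a field `k`, `Γ` its Galois group, `V = H^i(X)` with
coefficients in an algebraically closed field `K` of characteristic zero (for example the algebraic
closure of `ℚ_ℓ`; semisimplicity over `ℚ_ℓ` and over its algebraic closure are equivalent), `b` the
dimension of `V`.  The Künneth component `V^{⊗ n}` of `H^{in}(X^n)` has dimension `b ^ n`.

If `V` is semisimple then all these Künneth components are semisimple.  If `V` is not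
semisimple then for every `n`, and every `k`, every chain `0 = F_0 ≤ F_1 ≤ ... ≤ F_k` of stable
subspaces with semisimple quotients `F_{i+1} / F_i` in the Künneth component has
`dim F_k ≤ k * sqrt (b / (2 (n + 1))) * b ^ n`.  In particular the largest semisimple
subrepresentation has at most the share `sqrt (b / (2 (n + 1)))` of the dimension, and `V` is
semisimple as soon as one chain of one Künneth component is longer.
-/

set_option autoImplicit false

namespace Pool.Agent.Results.MP_b4801b_ag.SocleOfPowers

open Module Pool.Agent.U282.ZL Pool.Agent.U282.PW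
open scoped TensorProduct

/-- The representation `V` of `Γ` (the cohomology of `X` in one degree) and the representations
`H n` (the cohomology of `X^n`), which contain the Künneth component `V^{⊗ n}`. -/
structure CohomologyOfPowers (K Γ : Type) [Field K] [Group Γ] where
  V : Type
  [addV : AddCommGroup V]
  [modV : Module K V]
  [finV : FiniteDimensional K V]
  /-- the action on `V` -/
  act : Representation K Γ V
  H : ℕ → Type
  [addH : ∀ n, AddCommGroup (H n)]
  [modH : ∀ n, Module K (H n)]
  /-- the action on the cohomology of the powers -/
  actH : ∀ n, Representation K Γ (H n)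
  /-- the Künneth map -/
  kunneth : ∀ n, (⨂[K] _ : Fin n, V) →ₗ[K] H n
  injective : ∀ n, Function.Injective (kunneth n)
  equivariant : ∀ n g t,
    kunneth n (PiTensorProduct.map (fun _ => act g) t) = actH n g (kunneth n t)

attribute [instance] CohomologyOfPowers.addV CohomologyOfPowers.modV CohomologyOfPowers.finV
  CohomologyOfPowers.addH CohomologyOfPowers.modH

variable {K Γ : Type} [Field K] [Group Γ]

/-- The Künneth component of the cohomology of `X^n`. -/
noncomputable def component (D : CohomologyOfPowers K Γ) (n : ℕ) : Submodule K (D.H n) :=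
  LinearMap.range (D.kunneth n)

/-- `F 0 ≤ F 1 ≤ ... ≤ F k` are stable subspaces of the Künneth component, `F 0 = 0`, and the
quotients `F (i + 1) / F i` are semisimple. -/
structure IsChain (D : CohomologyOfPowers K Γ) (n k : ℕ) (F : ℕ → Submodule K (D.H n)) : Prop where
  zero : F 0 = ⊥
  layers : ∀ i < k, SSLayer (D.actH n) (F i) (F (i + 1))
  le : F k ≤ component D n

/-- The bound `k * sqrt (b / (2 (n + 1))) * b ^ n`, where `b` is the dimension of `V`. -/
noncomputable def bound (D : CohomologyOfPowers K Γ) (n k : ℕ) : ℝ :=
  k * (Real.sqrt ((finrank K D.V : ℝ) / (2 * (n + 1))) * (finrank K D.V : ℝ) ^ n)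

theorem chain_le (D : CohomologyOfPowers K Γ) (n k : ℕ) (F : ℕ → Submodule K (D.H n))
    (h : IsChain D n k F) : ∀ i ≤ k, F i ≤ component D n := by
  have key : ∀ j, j ≤ k → F (k - j) ≤ component D n := by
    intro j
    induction j with
    | zero => intro _; exact h.le
    | succ j ih =>
      intro hj
      have h1 := (h.layers (k - (j + 1)) (by omega)).le
      rw [show k - (j + 1) + 1 = k - j by omega] at h1
      exact h1.trans (ih (by omega))
  intro i hi
  have := key (k - i) (by omega)
  rwa [show k - (k - i) = i by omega] at this

theorem upper [CharZero K] [IsAlgClosed K] (D : CohomologyOfPowers K Γ) (hD : ¬ SSRep D.act)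
    (n k : ℕ) (F : ℕ → Submodule K (D.H n)) (h : IsChain D n k F) :
    (finrank K (F k) : ℝ) ≤ bound D n k := by
  have hκ := D.injective n
  have he : ∀ g t, D.kunneth n (tpow D.act n g t) = D.actH n g (D.kunneth n t) :=
    D.equivariant n
  have h1 := filt_bound D.act hD n k (fun i => (F i).comap (D.kunneth n)) (by
    show (F 0).comap (D.kunneth n) = ⊥
    rw [h.zero]
    exact LinearMap.ker_eq_bot.2 hκ) (fun i hi =>
      SSLayer.comap _ _ _ hκ he _ _ (chain_le D n k F h (i + 1) hi) (h.layers i hi))
  have h2 : finrank K (F k) = finrank K ((F k).comap (D.kunneth n)) := by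
    have h3 : ((F k).comap (D.kunneth n)).map (D.kunneth n) = F k := by
      rw [Submodule.map_comap_eq]
      exact inf_eq_right.2 h.le
    conv_lhs => rw [← h3]
    exact (Submodule.equivMapOfInjective (D.kunneth n) hκ _).finrank_eq.symm
  rw [h2]
  exact h1

theorem result [CharZero K] [IsAlgClosed K] (D : CohomologyOfPowers K Γ) :
    (SSRep D.act ↔ ∃ (n k : ℕ) (F : ℕ → Submodule K (D.H n)), IsChain D n k F ∧
      bound D n k < finrank K (F k)) ∧
    (SSRep D.act → ∀ n, SSLayer (D.actH n) ⊥ (component D n)) := by
  have hss : SSRep D.act → ∀ n, SSLayer (D.actH n) ⊥ (component D n) := fun h n =>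
    SSLayer.map_range (tpow D.act n) (D.actH n) (D.kunneth n) (D.injective n)
      (D.equivariant n) (chevalley D.act h n)
  refine ⟨⟨fun h => ?_, ?_⟩, hss⟩
  · refine ⟨finrank K D.V, 1, fun i => if i = 0 then ⊥ else component D (finrank K D.V), ?_, ?_⟩
    · refine ⟨rfl, ?_, le_rfl⟩
      intro i hi
      have : i = 0 := by omega
      subst this
      exact hss h _
    · have h1 : finrank K (component D (finrank K D.V)) = finrank K D.V ^ finrank K D.V := by
        rw [component, LinearMap.finrank_range_of_inj (D.injective _), finrank_tensor]
      show bound D (finrank K D.V) 1 < (finrank K (component D (finrank K D.V)) : ℝ)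
      rw [h1, bound]
      push_cast
      rw [one_mul]
      have hpos : (0 : ℝ) < (finrank K D.V : ℝ) ^ finrank K D.V := by
        have : 0 < finrank K D.V ^ finrank K D.V := by
          rcases Nat.eq_zero_or_pos (finrank K D.V) with h0 | h0
          · rw [h0]; norm_num
          · exact pow_pos h0 _
        exact_mod_cast this
      have hsq : Real.sqrt ((finrank K D.V : ℝ) / (2 * ((finrank K D.V : ℝ) + 1))) < 1 := by
        rw [Real.sqrt_lt' one_pos, one_pow, div_lt_one (by positivity)]
        have : (0 : ℝ) ≤ finrank K D.V := Nat.cast_nonneg _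
        linarith
      nlinarith
  · rintro ⟨n, k, F, hF, hlt⟩
    by_contra hD
    exact absurd (upper D hD n k F hF) (not_le.2 hlt)

end Pool.Agent.Results.MP_b4801b_ag.SocleOfPowers
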