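import Mathlib
import Pool.Agent.U175.LP.R5

/-!
# Semisimplicity at every prime number from transvections modulo one prime number

Let `M` be a pure motive over `ℚ` of weight `w > 0` and rank `n` with an alternating polarization (for
instance the middle cohomology of a hypersurface or complete intersection of odd dimension, or the
restriction of scalars of such a motive over a number field). Its realizations are a pure system of
representations `ρ ℓ` of the Galois group of `ℚ` (`IsPureSystem`; `Γ` is the Galois group of `ℚ` and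
`θ` is the identity; as for the starting results on this question, `Γ` may also be the fundamental
group of a variety with a rational point: this gives the case of finitely generated fields).

**Theorem.** Let `p ≥ 5` be ONE prime number. Suppose that the `p`-adic realization has a lattice
`ℤ_p ^ n` which is stable under Galois and on which a multiple of the polarization is unimodular
(`IsUnimodularLattice`), and that the vectors `v` of the transvections
`x ↦ x + c ⟨v, x⟩ v` (`c ≠ 0`) in the image of the Galois group MODULO `p` span `(ℤ / p) ^ n`. Then for EVERY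
prime number `ℓ` the representation `ρ ℓ` is semisimple, for all subgroups `U` of finite index, and so are
all its subrepresentations `V` for `U`.

For example the hypothesis is satisfied if the residual representation modulo `p` is irreducible and
ONE element of the Galois group acts modulo `p` by a nontrivial transvection (the vectors of its
conjugates span a stable subspace), for instance an element of the inertia group at a prime number
`q ≠ p` at which the variety acquires one ordinary double point (with a local parameter which is not a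
`p`-th power). But the residual representation need not be irreducible, and its image may be small
compared to the symplectic group: the vectors may be distributed over orthogonal subspaces. The latter
happens for restrictions of scalars: if `F` is a number field, `M'` a motive over `F` and `M` its
restriction of scalars, then the `ℓ`-adic realization of `M'` is a subrepresentation of `ρ ℓ` for the
Galois group of `F`. So the conjecture of Grothendieck and Serre follows for `M'`, for all prime numbers
without exception, from one finite Galois group, the image modulo `p`. There is no hypothesis on the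
`p`-adic image, on other prime numbers, on Frobenius polynomials or on Hodge numbers, no bound for `p`
in terms of `n`, and no independence of the conjugates beyond the transvections. The kept result
`FromImageModTwo` has hypotheses modulo two: all even permutations of `N i + 1` vectors, realized
independently on the blocks of an orthogonal decomposition over a subgroup.

Proof. Let `R` be the action on the lattice together with the multiplier, and `𝔤` the saturated Lie
algebra over `ℤ_p` of the tangent vectors of its image. If `g` acts modulo `p` by a transvection `1 + E`,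
then `h = g ^ (p - 1)` acts by `1 - E` and its multiplier is `1` modulo `p`; as `p ≥ 5`, `h ^ p` is
`1 - p E` modulo `p ^ 2`, and the logarithm of `h ^ p` shows that `E` is the reduction of a tangent
vector. The Lie algebra `L` of all reductions is in `gsp (n, 𝔽_p)`. Let `v` and `v'` be vectors of
transvections with `⟨v, v'⟩ ≠ 0`; then `L` contains the algebra `sl 2` of the hyperbolic plane which they
span, hence its projections: for each vector `u` of a transvection, the vectors of the operators
`x ↦ ⟨u, x⟩ u` in `L` include the projection of `u` to the orthogonal complement of the plane. By induction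
there is a hyperbolic basis `u_1, f_1, …, u_m, f_m` of `(ℤ / p) ^ n`, `n = 2 m`, such that `L` contains
the elements `y_i` which are `1` on `u_i`, `-1` on `f_i` and `0` on the other vectors
(`exists_torus`). Let `Y_i` be tangent vectors of multiplier `0` with these reductions (they are brackets).
The polynomial `F (t) = Φ (charpoly (∑ t_i Y_i))` in `t_1, …, t_m` over `ℤ_p`, where `Φ` of the
characteristic polynomial with the roots `±a_k` is the product of all `∑ ε_k a_k` with `ε_k` in
`{0, 1, -1}`, not all zero (a polynomial in the coefficients), is not zero modulo `p`, since its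
reduction is the product of the linear forms `∑ ε_k t_k`. Hence `F (t) ≠ 0` for some `t` in `ℤ_p ^ m`,
although all `∑ ε_k t_k` may vanish modulo `p` for all `t` in `𝔽_p ^ m` if `m` is large compared to `p`.
So `∑ t_i Y_i` is an element of the Lie algebra without isotropic relation between its eigenvalues, and
the theorem of the starting library `Pool.Agent.R932.SQ` (from one such element at one prime number to
semisimplicity at all prime numbers) applies. Clifford's and Maschke's theorems give the case of
subgroups of finite index.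
-/

set_option autoImplicit false

namespace Pool.Agent.Results.MP_b4801b_ag.TransvectionsModPrime

open Matrix Polynomial Filter Topology NumberField IsDedekindDomain

/-- the absolute Galois group, with the profinite (Krull) topology -/
abbrev AbsoluteGaloisGroup (K : Type) [Field K] : Type := Gal(AlgebraicClosure K/K)

/-- `σ` is a Frobenius element at the prime `v` of `K`: there is a maximal ideal `Q` above `v` of the
ring of all algebraic integers with `σ x ≡ x ^ N(v)` modulo `Q` for all `x` -/
def IsFrobenius {K : Type} [Field K] [NumberField K] (v : HeightOneSpectrum (𝓞 K))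
    (σ : AbsoluteGaloisGroup K) : Prop :=
  ∃ Q : Ideal (𝓞 (AlgebraicClosure K)), Q.IsMaximal ∧
    Q.comap (algebraMap (𝓞 K) (𝓞 (AlgebraicClosure K))) = v.asIdeal ∧
    ∀ x : 𝓞 (AlgebraicClosure K), σ • x - x ^ Ideal.absNorm v.asIdeal ∈ Q

/-- Representations `ρ ℓ` of a group `Γ` on the `n`-dimensional spaces over the fields of `ℓ`-adic
numbers, for all prime numbers `ℓ`, and a homomorphism `θ` from the absolute Galois group of `ℚ` to
`Γ`, such that
* `ρ ℓ` is continuous on the Galois group of `ℚ`,
* `Γ` acts by similitudes, with factor `χ ℓ`, of the nondegenerate symmetric or alternating form with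
  matrix `J ℓ`,
* the representations are pure of weight `w` and form a compatible system: outside of the finite set
  `S` of places the inverse of a Frobenius element at `v` acts for all `ℓ` not divisible by `v` with the
  characteristic polynomial `P v`, which has integral coefficients and complex roots of absolute value
  `N(v) ^ (w / 2)`, and with similitude factor `N(v) ^ w`. -/
structure IsPureSystem {Γ : Type} [Group Γ] (θ : AbsoluteGaloisGroup ℚ →* Γ) (n w : ℕ)
    (S : Set (HeightOneSpectrum (𝓞 ℚ))) (P : HeightOneSpectrum (𝓞 ℚ) → ℤ[X])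
    (ρ : ∀ (ℓ : ℕ) [Fact ℓ.Prime], Γ →* Matrix (Fin n) (Fin n) ℚ_[ℓ])
    (J : ∀ (ℓ : ℕ) [Fact ℓ.Prime], Matrix (Fin n) (Fin n) ℚ_[ℓ])
    (χ : ∀ (ℓ : ℕ) [Fact ℓ.Prime], Γ → ℚ_[ℓ]) : Prop where
  finite : S.Finite
  monic : ∀ v ∉ S, (P v).Monic
  weight : ∀ v ∉ S, ∀ z : ℂ, aeval z (P v) = 0 → ‖z‖ ^ 2 = (Ideal.absNorm v.asIdeal : ℝ) ^ w
  continuous : ∀ (ℓ : ℕ) [Fact ℓ.Prime], Continuous fun g => ρ ℓ (θ g)
  symm_or_alt : ∀ (ℓ : ℕ) [Fact ℓ.Prime], (J ℓ)ᵀ = J ℓ ∨ (J ℓ)ᵀ = -J ℓ
  nondegenerate : ∀ (ℓ : ℕ) [Fact ℓ.Prime], (J ℓ).det ≠ 0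
  similitude : ∀ (ℓ : ℕ) [Fact ℓ.Prime] (g : Γ), (ρ ℓ g)ᵀ * J ℓ * ρ ℓ g = χ ℓ g • J ℓ
  charpoly : ∀ (ℓ : ℕ) [Fact ℓ.Prime], ∀ v ∉ S, (ℓ : 𝓞 ℚ) ∉ v.asIdeal →
    ∀ σ : AbsoluteGaloisGroup ℚ, IsFrobenius v σ →
      (ρ ℓ (θ σ⁻¹)).charpoly = (P v).map (algebraMap ℤ ℚ_[ℓ])
  factor : ∀ (ℓ : ℕ) [Fact ℓ.Prime], ∀ v ∉ S, (ℓ : 𝓞 ℚ) ∉ v.asIdeal →
    ∀ σ : AbsoluteGaloisGroup ℚ, IsFrobenius v σ →
      χ ℓ (θ σ⁻¹) = (Ideal.absNorm v.asIdeal : ℚ_[ℓ]) ^ w

/-- The action of the Galois group of `ℚ` preserves the lattice `ℤ_p ^ n`, where it is given by the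
matrices `R g`, and a multiple of the form is unimodular and alternating on the lattice. -/
structure IsUnimodularLattice {Γ : Type} [Group Γ] (θ : AbsoluteGaloisGroup ℚ →* Γ) {n p : ℕ}
    [Fact p.Prime] (ρ : Γ →* Matrix (Fin n) (Fin n) ℚ_[p]) (J : Matrix (Fin n) (Fin n) ℚ_[p])
    (R : AbsoluteGaloisGroup ℚ →* Matrix (Fin n) (Fin n) ℤ_[p])
    (B : Matrix (Fin n) (Fin n) ℤ_[p]) : Prop where
  act : ∀ g, ρ (θ g) = (R g).map (algebraMap ℤ_[p] ℚ_[p])
  form : ∃ c : ℚ_[p], c ≠ 0 ∧ J = c • B.map (algebraMap ℤ_[p] ℚ_[p])
  alternating : Bᵀ = -B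
  unimodular : IsUnit B.det

/-- The matrix `M` acts modulo `p` by the nontrivial transvection `x ↦ x + c * ⟨v, x⟩ * v`, `c ≠ 0`,
for the form with matrix `B` (if `v` is not zero). -/
def IsTransvection {n p : ℕ} [Fact p.Prime] (B M : Matrix (Fin n) (Fin n) ℤ_[p])
    (v : Fin n → ZMod p) : Prop :=
  ∃ c : ZMod p, c ≠ 0 ∧ ∀ x, (M.map PadicInt.toZMod).mulVec x =
    x + (c * (v ⬝ᵥ (B.map PadicInt.toZMod).mulVec x)) • v

/-- the subspace `W` is stable under the subgroup `U` -/
def IsStable {F : Type} [Field F] {n : ℕ} {Γ : Type} [Group Γ] (ρ : Γ →* Matrix (Fin n) (Fin n) F)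
    (U : Subgroup Γ) (W : Submodule F (Fin n → F)) : Prop :=
  ∀ g ∈ U, ∀ x ∈ W, ρ g *ᵥ x ∈ W

/-- the subrepresentation `V` of the restriction to `U` is semisimple: every stable subspace of `V`
has a stable complement in `V` -/
def IsSemisimpleOn {F : Type} [Field F] {n : ℕ} {Γ : Type} [Group Γ]
    (ρ : Γ →* Matrix (Fin n) (Fin n) F) (U : Subgroup Γ) (V : Submodule F (Fin n → F)) : Prop :=
  ∀ W ≤ V, IsStable ρ U W → ∃ W' ≤ V, IsStable ρ U W' ∧ W ⊓ W' = ⊥ ∧ W ⊔ W' = V

/-- **Semisimplicity at every prime number from transvections modulo one prime number.** -/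
theorem result {Γ : Type} [Group Γ] (θ : AbsoluteGaloisGroup ℚ →* Γ) {n w : ℕ} (hw : 0 < w)
    (S : Set (HeightOneSpectrum (𝓞 ℚ))) (P : HeightOneSpectrum (𝓞 ℚ) → ℤ[X])
    (ρ : ∀ (ℓ : ℕ) [Fact ℓ.Prime], Γ →* Matrix (Fin n) (Fin n) ℚ_[ℓ])
    (J : ∀ (ℓ : ℕ) [Fact ℓ.Prime], Matrix (Fin n) (Fin n) ℚ_[ℓ])
    (χ : ∀ (ℓ : ℕ) [Fact ℓ.Prime], Γ → ℚ_[ℓ]) (h : IsPureSystem θ n w S P ρ J χ)
    -- the lattice and the hypothesis on the image modulo the prime number `p`
    {p : ℕ} [Fact p.Prime] (hp : 5 ≤ p)
    (R : AbsoluteGaloisGroup ℚ →* Matrix (Fin n) (Fin n) ℤ_[p]) (B : Matrix (Fin n) (Fin n) ℤ_[p])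
    (hB : IsUnimodularLattice θ (ρ p) (J p) R B)
    (hT : Submodule.span (ZMod p) {v | ∃ σ, IsTransvection B (R σ) v} = ⊤) :
    -- semisimplicity at every prime number
    ∀ (ℓ : ℕ) [Fact ℓ.Prime] (U : Subgroup Γ), U.FiniteIndex →
      ∀ V : Submodule ℚ_[ℓ] (Fin n → ℚ_[ℓ]), IsStable (ρ ℓ) U V → IsSemisimpleOn (ρ ℓ) U V := by
  intro ℓ hℓ U hU V hV W hWV hW
  exact (Pool.Agent.U175.LP.ss_transv (Module.finrank_self ℚ) θ hw h.finite P
    (fun v hv => ⟨h.monic v hv, h.weight v hv⟩) ρ (fun ℓ _ => h.continuous ℓ) J
    (fun ℓ _ => h.symm_or_alt ℓ) (fun ℓ _ => h.nondegenerate ℓ) χ (fun ℓ _ => h.similitude ℓ)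
    (fun ℓ _ v hv hvℓ σ hσ => ⟨h.charpoly ℓ v hv hvℓ σ hσ, h.factor ℓ v hv hvℓ σ hσ⟩)
    hp R B hB.act hB.form hB.alternating hB.unimodular hT ℓ U hU).sub hV hW hWV

end Pool.Agent.Results.MP_b4801b_ag.TransvectionsModPrime
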